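import Pool.Agent.Y874.SS.Main

/-!
# MP_af603d_lc: `2 ^ |L|` many non-separable strongly surjective linear orders

Full answer to Q1 (negative), in a stronger form than `DenseNonCCC`: if there is an uncountable
strongly surjective linear order `L`, then there are `2 ^ |L|` pairwise non-isomorphic ones of the
cardinality of `L`, none of them separable.  The class of strongly surjective linear orders is
closed under lexicographic products and under lexicographic sums of suitable families.
-/

set_option autoImplicit false

namespace Pool.Agent.Results.MP_af603d_lc.ManyNonSeparable

open Cardinal Set Pool.Agent.Y874.SS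

universe u

/-- (1) The lexicographic product of two strongly surjective linear orders is strongly surjective.
(2) If `L` is strongly surjective and each of the suborders `E x` (`x ∈ L`) of a linear order `C`
maps onto each nonempty suborder of each `E y`, then the lexicographic sum of the `E x` over `L` is
strongly surjective.
(3) If `L` is an uncountable strongly surjective linear order, there is a family of linear orders
`M S`, one for each subset `S` of `L`, which are strongly surjective, pairwise non-isomorphic, of
the cardinality of `L`, contain a copy of `L`, have `|L|` many pairwise disjoint nonempty open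
intervals and are not separable, and such that any two of them map onto each other and embed into
each other. -/
theorem result :
    (∀ (L C : Type u) [LinearOrder L] [LinearOrder C],
      StronglySurjective L → StronglySurjective C → StronglySurjective (L ×ₗ C)) ∧
    (∀ (L C : Type u) [LinearOrder L] [LinearOrder C] (E : L → Set C), StronglySurjective L →
      (∀ x y, ∀ S ⊆ E y, S.Nonempty → MapsOnto (E x) S) →
      StronglySurjective {w : L ×ₗ C // (ofLex w).2 ∈ E (ofLex w).1}) ∧
    ∀ (L : Type u) [LinearOrder L] [Uncountable L], StronglySurjective L →
      ∃ (M : Set L → Type u) (_ : ∀ S, LinearOrder (M S)),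
        (∀ S, StronglySurjective (M S) ∧ #(M S) = #L ∧ Nonempty (L ↪o M S) ∧
          (∃ a b : L → M S, (∀ x, (Ioo (a x) (b x)).Nonempty) ∧
            Pairwise fun x y => Disjoint (Ioo (a x) (b x)) (Ioo (a y) (b y))) ∧
          ∀ D : Set (M S), D.Countable → ¬ @Dense (M S) (Preorder.topology (M S)) D) ∧
        (∀ S T, MapsOnto (M S) (M T) ∧ Nonempty (M S ↪o M T)) ∧
        ∀ S T, Nonempty (M S ≃o M T) → S = T :=
  ⟨fun _ _ _ _ hL hC => hL.prod hC, fun _ _ _ _ E hL H => hL.sum E H, fun L _ _ hL => main L hL⟩

end Pool.Agent.Results.MP_af603d_lc.ManyNonSeparable
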